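import Mathlib
import Pool.Agent.Helper11.Fr.Thm

/-!
# The standard conjecture D, the Tate conjecture for squares, and relations between Frobenius
# eigenvalues

Let `H` be any Weil cohomology theory over any field `k`, with coefficient field `K`, and `g` a
symmetry of `H` with multiplier `q`: main example, the Frobenius endomorphism, for `k` a finite
field with `q` elements and `ℓ`-adic cohomology, `K = ℚ_ℓ`.

Let `V_1, …, V_r` be varieties over `k`, and `E_c ⊆ H(V_c)` pieces of Tate type: the orthogonal
projection to `E_c` is algebraic, `g` is semisimple on `E_c`, and every endomorphism of `E_c` which
commutes with `g` up to a power of `q` is algebraic (Tate conjecture for `V_c × V_c`). For instance,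
the even and the odd part of the cohomology of varieties over a finite field satisfying the Tate
conjecture for `V_c × V_c` and semisimplicity, such as abelian varieties and K3 surfaces.

Theorem: assume that the relations over `K` between the eigenvalues of `g` on `E_1, …, E_r` are
symmetric, as follows: if `f_1, …, f_r` are monic polynomials over `K` the roots of which are
eigenvalues of `g` on `E_1, …, E_r` respectively, and `f_1(0) ⋯ f_r(0) = ± q ^ n` for some integer
`n`, then the multisets of the roots of the `f_c` modulo `q ^ ℤ` are stable under `α ↦ 1 / α`. Then
the standard conjecture D holds for all powers of all varieties the cohomology of which is spanned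
by the images, under algebraic correspondences, of products of pull-backs of elements of the `E_c`;
in particular for all products of copies of the `V_c`, if the pieces span the cohomology of the
`V_c`.

The assumption on the relations holds if the irreducible factors over `K = ℚ_ℓ` of the
characteristic polynomials of Frobenius are self-dual (for instance, if complex conjugation is in
the decomposition groups above `ℓ` of the field generated by the eigenvalues: a set of primes `ℓ` of
positive density, as in Clozel's theorem for abelian varieties), and also if there are no
multiplicative relations between the eigenvalues other than those given by duality (as in the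
work of Zarhin, and Lenstra and Zarhin, for special classes of varieties, where the Tate
conjecture holds for all powers).
-/

universe u v w

open Pool.Agent.Helper10 Pool.Agent.Helper11.Fr

theorem Pool.Agent.Results.MP_5f0950_ag.FrobeniusRelations.result
    {k : Type u} [Field k] {K : Type v} [Field K] [CharZero K] (W : WeilCohomology.{u, v, w} k K)
    (g : ∀ X : SmProjVar k, W.H X →ₗ[K] W.H X) (q : K) (hg : IsSymmetry W.toCohomologyData g q)
    {r : ℕ} (V : Fin r → SmProjVar k) (E : ∀ c, Submodule K (W.H (V c)))
    (hE : ∀ c, IsTatePiece W.toCohomologyData q (g (V c)) (E c))
    (hR : SymmetricRelations q (fun c => g (V c)) E) (Y : SmProjVar k)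
    (hY : IsSpannedByWords W.toCohomologyData E Y) (n : ℕ) : W.StandardD (power Y n) :=
  standardD W hg hE hR hY n
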