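import Mathlib
import Pool.Agent.Helper11.Sq.Thm

/-!
# The standard conjecture D for powers, and the Tate conjecture for squares

Let `W` be any Weil cohomology theory over any field `k`, with coefficient field `K`. Let `X` be a
variety all of whose powers satisfy the standard conjecture D, for instance a point. A class in
`H(V)` is called residual (relative to `X`) if it is orthogonal to the images of the cohomology of
the powers of `X` under algebraic correspondences; for `X` a point: orthogonal to the classes of
algebraic cycles.

We say that `V` is of self-dual Tate type relative to `X` if, for some set `S` of operators on
`H(V)` (each of them the action of a symmetry of the cohomology theory, such as the action of a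
Galois group on `ℓ`-adic cohomology, or an algebraic correspondence, such as the Frobenius
endomorphism), the space `N` of residual classes is a semisimple `S`-module, all
`S`-endomorphisms of `N` are induced by algebraic correspondences (the Tate conjecture for
`V × V`), and no non-zero `S`-submodule `F` of `N` is orthogonal to all its images under
`S`-homomorphisms `F → N`; for instance, all simple constituents of `N` are self-dual up to a twist.

Theorem: if `V_1, …, V_r` are of self-dual Tate type relative to `X`, then the standard conjecture D
holds for all powers of `X × V_1 × ⋯ × V_r`, and more generally for all varieties the cohomology of
which is spanned by the images of the cohomology of these powers under algebraic correspondences.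

So for `ℓ`-adic cohomology over a finitely generated field, the Tate conjecture and semisimplicity
for the square `V × V` imply the standard conjecture D for all powers of `V`, as soon as the
irreducible constituents of the `ℓ`-adic cohomology of `V` are self-dual up to a Tate twist; over a
finite field this holds for the `ℓ` in a set of primes of positive density.
-/

universe u v w

open Pool.Agent.Helper10 Pool.Agent.Helper11.Sq

theorem Pool.Agent.Results.MP_5f0950_ag.TateSquare.result
    {k : Type u} [Field k] {K : Type v} [Field K] [CharZero K] (W : WeilCohomology.{u, v, w} k K)
    (X : SmProjVar k) (hX : ∀ n, W.StandardD (power X n)) (l : List (SmProjVar k))
    (hl : ∀ V ∈ l, ∃ S, IsSelfDualTate W.toCohomologyData X V S) (Y : SmProjVar k)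
    (hY : imageOfPowers W.toCohomologyData (prodList X l) Y = ⊤) (n : ℕ) :
    W.StandardD (power Y n) :=
  standardD W hX l hl hY n
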